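import Pool.Agent.ATB.Stmts

set_option autoImplicit false

namespace Pool.Agent.ATB.H1

open scoped TensorProduct

theorem omc (fil : FILStmt) (clo : CLOStmt) (j00 : J00Stmt) (dif : DIFStmt) : OMCStmt := by
  intro K _ n k Z W m hZW hOm hH η hη hdη
  obtain ⟨c1, c2, c3, c4, c5, c6, c7, c8, c9, c10⟩ := clo K n k Z
  have hins : ins Z W = Z := ins_eq_self hZW
  have hCW : ∀ i, Cc k Z W i = OmH k Z W i := by
    intro i
    unfold Cc
    rw [hins]
  have hbot : ∀ (H : Submodule K (Fin n → K)) (i : ℤ), ¬ H ≤ W → Cc k Z H i = ⊥ := by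
    intro H i hHW
    have h9 := (clo K n k (ins Z H)).2.2.2.2.2.2.2.2.1
    exact h9 H W i (fun z hz => hZW z (mem_ins.1 hz).1) hHW
  have hηW : η ∈ OmH k Z W m := by rw [← hCW]; exact hη
  -- a shift of degrees
  have e1 : m - 1 + 1 = m := by ring
  have e2 : m - 2 + 1 = m - 1 := by ring
  have e3 : m - 1 - 1 = m - 2 := by ring
  have hlead : ∀ (H : Submodule K (Fin n → K)) (r : ℕ) (i : ℤ), Module.finrank K H = r →
      (⨆ (H' : Submodule K (Fin n → K)) (_ : H ≤ H' ∧ Module.finrank K H' = Module.finrank K H + 1),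
        OmH k Z H' i) ≤ Omge k Z (r + 1) i := by
    intro H r i hr
    refine iSup₂_le (fun H' hH' => ?_)
    unfold Omge
    exact le_iSup₂_of_le H' (by omega) le_rfl
  have key : ∀ r : ℕ, r ≤ Module.finrank K W → ∃ θ ∈ Omge k Z r (m - 1), dd θ = η := by
    intro r
    induction r with
    | zero =>
      intro _
      obtain ⟨θ, hθ, hdθ⟩ := hOm η (c5 W m hηW) hdη
      exact ⟨θ, by rw [c6]; exact hθ, hdθ⟩
    | succ r ih =>
      intro hr
      obtain ⟨θ, hθ, hdθ⟩ := ih (by omega)
      have hQ2 : η ∈ Omge k Z (r + 1) m := by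
        have : OmH k Z W m ≤ Omge k Z (r + 1) m := by
          unfold Omge
          exact le_iSup₂_of_le W hr le_rfl
        exact this hηW
      have hmain := fil K (AA K n) {H : Submodule K (Fin n → K) // Module.finrank K H = r} dd
        (fun H => pm (prodm (out Z H.1))) (fun H => Cc k Z H.1 (m - 2)) (fun H => Cc k Z H.1 (m - 1))
        (fun H => Cc k Z H.1 m) (Omge k Z (r + 1) (m - 1)) (Omge k Z (r + 1) m) 1 one_ne_zero
        (dif K n).1
        (by
          intro H x hx
          have := c2 H.1 (m - 1) x hx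
          rwa [e1] at this)
        (by
          intro H x hx
          rw [one_smul]
          have := hlead H.1 r (m - 1 + 1) H.2 (c4 H.1 (m - 1) x hx)
          rwa [e1] at this)
        (by
          intro H x hx
          rw [one_smul]
          have := hlead H.1 r (m - 2 + 1) H.2 (c4 H.1 (m - 2) x hx)
          rwa [e2] at this)
        (j00 K n k Z m r)
        (by
          intro H x hx hdx
          by_cases hHW : H.1 ≤ W
          · have hlt : H.1 < W := by
              refine lt_of_le_of_ne hHW (fun h => ?_)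
              have h2 := H.2
              rw [h] at h2
              omega
            have := hH H.1 hlt x hx hdx
            rwa [e3] at this
          · have hx' : x ∈ Cc k Z H.1 (m - 1) := hx
            rw [hbot H.1 _ hHW, Submodule.mem_bot] at hx'
            exact ⟨0, Submodule.zero_mem _, by rw [map_zero, hx']⟩)
        (by
          intro x hx
          have := c7 (r + 1) (m - 1) x hx
          rwa [e1] at this)
        θ (by rw [← c10 r (m - 1)]; exact hθ) (by rw [hdθ]; exact hQ2)
      obtain ⟨θ', hθ', hdθ'⟩ := hmain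
      exact ⟨θ', hθ', by rw [hdθ', hdθ]⟩
  obtain ⟨θ, hθ, hdθ⟩ := key _ le_rfl
  refine ⟨θ, ?_, hdθ⟩
  rw [hCW]
  have hle : Omge k Z (Module.finrank K W) (m - 1) ≤ OmH k Z W (m - 1) := by
    unfold Omge
    refine iSup₂_le (fun H hHr => ?_)
    by_cases hHW : H ≤ W
    · have : H = W := Submodule.eq_of_le_of_finrank_le hHW hHr
      rw [this]
    · rw [c9 H W (m - 1) hZW hHW]
      exact bot_le
  exact hle hθ

end Pool.Agent.ATB.H1
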